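import Pool.Agent.GRA.StmtsK

/-!
# Squad GRA (MP_3b0ba7_pr), row KSP: spherical representations are Bose representations
-/

open MeasureTheory Matrix Finset
open scoped ComplexConjugate

namespace Pool.Agent.GRA.H24

open Pool.Agent.Helper64_FR Pool.Agent.UTR Pool.Agent.BSE Pool.Agent.GRA

/-- row KSP -/
theorem ksp (ksw : KSWStmt) (knz : KNZStmt) (krg : KRGStmt) : KSPStmt := by
  classical
  intro n hn σ hσ hns
  unfold NSph at hns
  push Not at hns
  obtain ⟨l, h, h1, h2, h0⟩ := hns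
  have hex : ∃ k, ∃ I J : Fin k → Fin n, arr σ h l k h I J ≠ 0 := ksw n σ h l h0 h1 h2
  obtain ⟨m, hm⟩ : ∃ m : Fin n, l ≠ m := by
    have hnt : Nontrivial (Fin n) := Fin.nontrivial_iff_two_le.mpr hn
    obtain ⟨m, hm⟩ := exists_ne l
    exact ⟨m, hm.symm⟩
  refine ⟨Nat.find hex, krg n σ h l m hm hσ _ (knz n σ h l m hm h2 h1 _ ?_ (Nat.find_spec hex))⟩
  intro j hj I J
  by_contra hne
  exact Nat.find_min hex hj ⟨I, J, hne⟩

end Pool.Agent.GRA.H24
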